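import Mathlib

set_option autoImplicit false

open Finset

namespace Pool.Agent.Results.MP_a62e4d_an.Barb

variable {𝕜 : Type} [RCLike 𝕜]

/-- `steps A k j = A (k+j-1) ⋯ A k`. -/
def steps {X : Type} [NormedAddCommGroup X] [NormedSpace 𝕜 X] (A : ℕ → X →L[𝕜] X) (k : ℕ) :
    ℕ → X →L[𝕜] X
  | 0 => ContinuousLinearMap.id 𝕜 X
  | j + 1 => (A (k + j)).comp (steps A k j)

/-- The evolution operator from time `k` to time `m ≥ k`. -/
def evol {X : Type} [NormedAddCommGroup X] [NormedSpace 𝕜 X] (A : ℕ → X →L[𝕜] X) (m k : ℕ) :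
    X →L[𝕜] X := steps A k (m - k)

noncomputable def AA (n : ℕ) : lp (fun _ : ℕ => 𝕜) 1 →L[𝕜] lp (fun _ : ℕ => 𝕜) 1 :=
  (lp.evalCLM 𝕜 (fun _ : ℕ => 𝕜) 1 n).smulRight (lp.single 1 (n + 1) 1)

lemma AA_apply (n : ℕ) (x : lp (fun _ : ℕ => 𝕜) 1) :
    AA n x = x n • lp.single 1 (n + 1) (1 : 𝕜) := rfl

lemma steps_apply (k j : ℕ) (x : lp (fun _ : ℕ => 𝕜) 1) :
    steps AA k (j + 1) x = x k • lp.single 1 (k + j + 1) (1 : 𝕜) := by
  induction j with
  | zero => rfl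
  | succ j ih =>
    rw [steps, ContinuousLinearMap.comp_apply, ih, AA_apply]
    simp [lp.single_apply, add_assoc]

lemma norm_steps (k j : ℕ) (x : lp (fun _ : ℕ => 𝕜) 1) : ‖steps AA k (j + 1) x‖ = ‖x k‖ := by
  rw [steps_apply, norm_smul, lp.norm_single one_pos, norm_one, mul_one]

theorem result (𝕜 : Type) [RCLike 𝕜] : ∃ (X : Type) (_ : NormedAddCommGroup X)
    (_ : NormedSpace 𝕜 X) (_ : CompleteSpace X) (A : ℕ → X →L[𝕜] X),
    (∃ B : ℝ, 1 ≤ B ∧ ∀ m x, ∑ k ∈ range (m + 1), ‖evol A m k x‖ ≤ B * ‖x‖) ∧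
    ¬ ∃ N ν : ℝ, 1 ≤ N ∧ 0 < ν ∧ ∀ m k, k ≤ m → ∀ x,
      ‖evol A m k x‖ ≤ N * Real.exp (-ν * ((m : ℝ) - k)) * ‖x‖ := by
  refine ⟨lp (fun _ : ℕ => 𝕜) 1, inferInstance, inferInstance, inferInstance, AA,
    ⟨2, by norm_num, fun m x => ?_⟩, ?_⟩
  · rw [sum_range_succ]
    have e1 : ∑ k ∈ range m, ‖evol AA m k x‖ = ∑ k ∈ range m, ‖x k‖ := by
      refine sum_congr rfl fun k hk => ?_
      rw [mem_range] at hk
      rw [evol, show m - k = (m - k - 1) + 1 by omega, norm_steps]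
    have e2 := lp.sum_rpow_le_norm_rpow (by simp) x (range m)
    simp only [ENNReal.toReal_one, Real.rpow_one] at e2
    have e3 : evol AA m m x = x := by rw [evol, Nat.sub_self]; rfl
    rw [e1, e3]
    linarith
  · rintro ⟨N, ν, hN, hν, h⟩
    obtain ⟨m, hm⟩ := exists_nat_gt (N / ν)
    have := h (m + 1) 0 (Nat.zero_le _) (lp.single 1 0 1)
    rw [evol, Nat.sub_zero, norm_steps, lp.norm_single one_pos] at this
    simp only [lp.single_apply, Pi.single_eq_same, norm_one, mul_one, Nat.cast_zero, sub_zero,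
      neg_mul, Real.exp_neg] at this
    rw [← div_eq_mul_inv, le_div_iff₀ (Real.exp_pos _), one_mul] at this
    have h2 := Real.add_one_le_exp (ν * ((m + 1 : ℕ) : ℝ))
    rw [div_lt_iff₀ hν] at hm
    push_cast at h2 this
    nlinarith

end Pool.Agent.Results.MP_a62e4d_an.Barb
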